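import Pool.Agent.H821.AM.Pol
import Pool.Agent.H821.AM.Beta
import Pool.Graph.R_seed8.H629R2.HT.Main

/-!
# The missing inequality of the project `H629R2.HT` (dimension three, Holmes-Thompson volume)

`8/3 ≤ |(K - K)°| (|K| + C/3)`, where `|K - b K| = |K| (1 + b³) + C (b + b²)`; it is the asymmetric
Mahler inequality `2³/3! ≤ |(K - K)°| ∫_0^1 |(1 - s) K - s K| ds` in dimension three.
-/

set_option autoImplicit false

open MeasureTheory Set
open scoped ENNReal Pointwise

namespace Pool.Agent.H821.HT

open Pool.Agent.H629R2.HT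

variable {n : ℕ}

theorem dpol_eq (K : Set (Fin n → ℝ)) : H821.AM.dpol K = po (df K) := by
  ext u
  unfold H821.AM.dpol po df
  simp only [mem_ofPred_eq]
  constructor
  · rintro h _ ⟨x, hx, y, hy, rfl⟩
    exact h x hx y hy
  · intro h x hx y hy
    exact h _ ⟨x, hx, y, hy, rfl⟩

theorem dpol_ne_top {K : Set (Fin n → ℝ)} (hi : (interior K).Nonempty) :
    volume (H821.AM.dpol K) ≠ ⊤ := by
  obtain ⟨x0, hx0⟩ := hi
  obtain ⟨ε, hε, hball⟩ := Metric.mem_nhds_iff.1 (mem_interior_iff_mem_nhds.1 hx0)
  have hsub : H821.AM.dpol K ⊆ Icc (fun _ => -(2 / ε)) (fun _ => 2 / ε) := by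
    intro u hu
    have h0 : x0 ∈ K := interior_subset hx0
    have h1 : ∀ i, x0 + Pi.single i (ε / 2) ∈ K := by
      intro i
      apply hball
      rw [mem_ball_iff_norm, add_sub_cancel_left, Pi.norm_single, Real.norm_of_nonneg (by positivity)]
      linarith
    constructor
    · intro i
      have := hu x0 h0 _ (h1 i)
      rw [sub_add_cancel_left, neg_dotProduct, single_dotProduct] at this
      show -(2 / ε) ≤ u i
      have h3 : -(2 / ε) = (2 / ε) * (-1) := by ring
      have h4 : u i = (2 / ε) * (ε / 2 * u i) := by field_simp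
      rw [h3, h4]
      exact mul_le_mul_of_nonneg_left (by linarith) (by positivity)
    · intro i
      have := hu _ (h1 i) x0 h0
      rw [add_sub_cancel_left, single_dotProduct] at this
      show u i ≤ 2 / ε
      have h3 : 2 / ε = (2 / ε) * 1 := by ring
      have h4 : u i = (2 / ε) * (ε / 2 * u i) := by field_simp
      rw [h3, h4]
      exact mul_le_mul_of_nonneg_left (by linarith) (by positivity)
  exact ((measure_mono hsub).trans_lt isCompact_Icc.measure_lt_top).ne

/-- `(1 - s) K - s K = (1 - s) (K - s/(1-s) K)` -/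
theorem comb_eq {K : Set (Fin n → ℝ)} {s : ℝ} (hs : s < 1) :
    (1 - s) • K - s • K = (1 - s) • ms K (ng K) (s / (1 - s)) := by
  have h1 : (0 : ℝ) < 1 - s := by linarith
  ext x
  simp only [Set.mem_sub, Set.mem_smul_set]
  constructor
  · rintro ⟨_, ⟨y, hy, rfl⟩, _, ⟨z, hz, rfl⟩, rfl⟩
    refine ⟨y + (s / (1 - s)) • (-z), ⟨y, hy, -z, ?_, rfl⟩, ?_⟩
    · show - -z ∈ K
      rwa [neg_neg]
    · rw [smul_add, smul_smul, mul_div_cancel₀ _ h1.ne', smul_neg]
      exact (sub_eq_add_neg _ _).symm
  · rintro ⟨_, ⟨y, hy, z, hz, rfl⟩, rfl⟩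
    refine ⟨(1 - s) • y, ⟨y, hy, rfl⟩, s • (-z), ⟨-z, hz, rfl⟩, ?_⟩
    rw [smul_add, smul_smul, mul_div_cancel₀ _ h1.ne', smul_neg, sub_neg_eq_add]

theorem comb_symm (K : Set (Fin n → ℝ)) (s : ℝ) :
    volume ((1 - s) • K - s • K) = volume (s • K - (1 - s) • K) := by
  rw [← neg_sub (s • K) ((1 - s) • K), Measure.measure_neg]

theorem S_mah_proof : S_mah := by
  intro K hK C h
  have hfin : ∀ b : ℝ, volume (ms K (ng K) b) ≠ ⊤ := fun b =>
    (isCompact_ms hK.comp (CB_ng hK).comp b).measure_lt_top.ne
  set F : ℝ → ℝ := fun s => V K * ((1 - s) ^ 3 + s ^ 3) + C * (s * (1 - s)) with hF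
  -- the estimate for `0 ≤ s ≤ 1/2`
  have half : ∀ s : ℝ, 0 ≤ s → s ≤ 1 / 2 → 0 ≤ F s ∧
      volume ((1 - s) • K - s • K) ≤ ENNReal.ofReal (F s) := by
    intro s h0 h1
    have hs1 : (0 : ℝ) < 1 - s := by linarith
    have hb0 : 0 ≤ s / (1 - s) := by positivity
    have hb1 : s / (1 - s) ≤ 1 := by
      rw [div_le_one hs1]
      linarith
    have h2 := h _ hb0 hb1
    have h3 : (1 - s) ^ 3 * V (ms K (ng K) (s / (1 - s))) ≤ F s := by
      refine (mul_le_mul_of_nonneg_left h2 (by positivity)).trans (le_of_eq ?_)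
      simp only [hF]
      field_simp
      ring
    refine ⟨le_trans (mul_nonneg (by positivity) (V_nonneg _)) h3, ?_⟩
    rw [comb_eq (by linarith), Measure.addHaar_smul, Module.finrank_fintype_fun_eq_card,
      Fintype.card_fin, abs_of_nonneg (by positivity), ← ENNReal.ofReal_toReal (hfin (s / (1 - s))),
      ← ENNReal.ofReal_mul (by positivity)]
    exact ENNReal.ofReal_le_ofReal h3
  have hFs : ∀ s, F (1 - s) = F s := by
    intro s
    simp only [hF]
    ring
  have all : ∀ s ∈ Icc (0 : ℝ) 1, 0 ≤ F s ∧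
      volume ((1 - s) • K - s • K) ≤ ENNReal.ofReal (F s) := by
    intro s hs
    rcases le_total s (1 / 2) with h1 | h1
    · exact half s hs.1 h1
    · have := half (1 - s) (by linarith [hs.2]) (by linarith)
      rw [hFs, sub_sub_cancel] at this
      rw [comb_symm]
      exact this
  have hmean : H821.AM.meanVol K ≤ ENNReal.ofReal (1 / 2 * (V K + C / 3)) := by
    unfold H821.AM.meanVol
    refine (setLIntegral_mono' measurableSet_Icc fun s hs => (all s hs).2).trans (le_of_eq ?_)
    rw [← ofReal_integral_eq_lintegral_ofReal]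
    · rw [integral_Icc_eq_integral_Ioc, ← intervalIntegral.integral_of_le (by norm_num)]
      congr 1
      simp only [hF]
      rw [intervalIntegral.integral_add (by apply Continuous.intervalIntegrable; fun_prop)
        (by apply Continuous.intervalIntegrable; fun_prop), intervalIntegral.integral_const_mul,
        intervalIntegral.integral_const_mul,
        intervalIntegral.integral_add (by apply Continuous.intervalIntegrable; fun_prop)
        (by apply Continuous.intervalIntegrable; fun_prop)]
      have b1 := H821.AM.beta 3 0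
      have b2 := H821.AM.beta 0 3
      have b3 := H821.AM.beta 1 1
      simp only [pow_zero, mul_one, one_mul, pow_one] at b1 b2 b3
      have b3' : ∫ s in (0 : ℝ)..1, s * (1 - s) = ∫ s in (0 : ℝ)..1, (1 - s) * s := by
        congr 1
        ext s
        ring
      rw [b3', b1, b2, b3]
      norm_num [Nat.factorial]
      ring
    · exact Continuous.integrableOn_Icc (by fun_prop)
    · exact (ae_restrict_iff' measurableSet_Icc).2 (Filter.Eventually.of_forall fun s hs => (all s hs).1)
  have hpos : 0 ≤ 1 / 2 * (V K + C / 3) := by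
    have h1 := (all (1 / 2) ⟨by norm_num, by norm_num⟩).1
    simp only [hF] at h1
    have h2 := h 1 zero_le_one le_rfl
    have h3 := V_nonneg (ms K (ng K) 1)
    have h4 := V_nonneg K
    linarith
  have h1 := (H821.AM.asym hK.comp hK.conv hK.int).trans (mul_le_mul_right hmean _)
  rw [← ENNReal.ofReal_toReal (dpol_ne_top hK.int), ← ENNReal.ofReal_mul ENNReal.toReal_nonneg,
    ENNReal.ofReal_le_ofReal_iff (mul_nonneg ENNReal.toReal_nonneg hpos)] at h1
  have h2 : V (po (df K)) = (volume (H821.AM.dpol K)).toReal := by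
    rw [dpol_eq]
    rfl
  rw [h2]
  norm_num [Nat.factorial] at h1
  linarith

end Pool.Agent.H821.HT
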